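import Pool.Agent.Helper20.ZT.Defs

/-! # Valuation rings of `ℂ` above almost all primes (module Z3) -/

namespace Pool.Agent.Helper91.ZT
open Polynomial

theorem aux_add {R : Type*} [CommRing R] (N u v : R) (k l : ℕ) :
    N ^ l * (N ^ k * u) + N ^ k * (N ^ l * v) = N ^ (k + l) * (u + v) := by ring

theorem aux_mul {R : Type*} [CommRing R] (N u v : R) (k l : ℕ) :
    (N ^ k * u) * (N ^ l * v) = N ^ (k + l) * (u * v) := by ring

/-- for a finite set `S` of complex numbers, almost no prime is a unit in `ℤ[S]` -/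
theorem exists_nonunit (S : Finset ℂ) : ∃ p₀ : ℕ, ∀ p : ℕ, p.Prime → p₀ ≤ p →
    ∀ y ∈ Algebra.adjoin ℤ (S : Set ℂ), (p : ℂ) * y ≠ 1 := by
  classical
  set A : Subalgebra ℚ ℂ := Algebra.adjoin ℚ (S : Set ℂ) with hA
  have : Algebra.FiniteType ℚ A := (Subalgebra.fg_iff_finiteType _).1 ⟨S, rfl⟩
  obtain ⟨M, hM⟩ := Ideal.exists_maximal A
  have := hM
  let _ : Field (A ⧸ M) := Ideal.Quotient.field M
  have : Algebra.FiniteType ℚ (A ⧸ M) := inferInstance
  have : Module.Finite ℚ (A ⧸ M) := finite_of_finite_type_of_isJacobsonRing ℚ (A ⧸ M)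
  have : Algebra.IsAlgebraic ℚ (A ⧸ M) := Algebra.IsAlgebraic.of_finite ℚ (A ⧸ M)
  have : Algebra.IsAlgebraic ℤ ℚ := IsLocalization.isAlgebraic ℚ (nonZeroDivisors ℤ)
  have : Algebra.IsAlgebraic ℤ (A ⧸ M) := Algebra.IsAlgebraic.trans ℤ ℚ (A ⧸ M)
  -- a common denominator of the images of the generators
  have hmem : ∀ a ∈ S, a ∈ A := fun a ha => Algebra.subset_adjoin ha
  let img : Finset (A ⧸ M) := S.attach.image fun a => Ideal.Quotient.mk M ⟨a.1, hmem a.1 a.2⟩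
  obtain ⟨N, hN, hint⟩ := Algebra.IsAlgebraic.exists_integral_multiples ℤ img
  refine ⟨N.natAbs + 1, fun p hp hpN y hy hpy => ?_⟩
  have key : ∀ y ∈ Algebra.adjoin ℤ (S : Set ℂ), ∃ hz : y ∈ A, ∃ k : ℕ,
      IsIntegral ℤ ((N : A ⧸ M) ^ k * Ideal.Quotient.mk M ⟨y, hz⟩) := by
    intro y hy
    induction hy using Algebra.adjoin_induction with
    | mem x hx =>
      refine ⟨hmem x hx, 1, ?_⟩
      have := hint (Ideal.Quotient.mk M ⟨x, hmem x hx⟩)
        (Finset.mem_image.2 ⟨⟨x, hx⟩, Finset.mem_attach _ _, rfl⟩)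
      simpa [zsmul_eq_mul] using this
    | algebraMap r =>
      refine ⟨by simp, 0, ?_⟩
      have h1 : (Ideal.Quotient.mk M) ⟨algebraMap ℤ ℂ r, by simp⟩
          = algebraMap ℤ (A ⧸ M) r := by
        have : (⟨algebraMap ℤ ℂ r, by simp⟩ : A) = (r : A) := by
          apply Subtype.ext; simp
        rw [this]; simp
      rw [h1, pow_zero, one_mul]
      exact isIntegral_algebraMap
    | add x z _ _ hx hz =>
      obtain ⟨hx, k, hk⟩ := hx
      obtain ⟨hz, l, hl⟩ := hz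
      refine ⟨A.add_mem hx hz, k + l, ?_⟩
      have e : (⟨x + z, A.add_mem hx hz⟩ : A) = ⟨x, hx⟩ + ⟨z, hz⟩ := rfl
      rw [e, map_add]
      have hNi : IsIntegral ℤ (N : A ⧸ M) := isIntegral_algebraMap (x := N)
      have h1 := (hNi.pow l).mul hk
      have h2 := (hNi.pow k).mul hl
      have h12 := h1.add h2
      rw [aux_add (N : A ⧸ M)] at h12
      exact h12
    | mul x z _ _ hx hz =>
      obtain ⟨hx, k, hk⟩ := hx
      obtain ⟨hz, l, hl⟩ := hz
      refine ⟨A.mul_mem hx hz, k + l, ?_⟩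
      have e : (⟨x * z, A.mul_mem hx hz⟩ : A) = ⟨x, hx⟩ * ⟨z, hz⟩ := rfl
      rw [e, map_mul]
      have h12 := hk.mul hl
      rw [aux_mul (N : A ⧸ M)] at h12
      exact h12
  obtain ⟨hz, k, hk⟩ := key y hy
  have h1 : (p : A ⧸ M) * Ideal.Quotient.mk M ⟨y, hz⟩ = 1 := by
    have e : (p : A) * ⟨y, hz⟩ = 1 := by
      apply Subtype.ext
      simpa using hpy
    have := congrArg (Ideal.Quotient.mk M) e
    simpa using this
  have hp0 : ((p : ℚ)) ≠ 0 := by exact_mod_cast hp.ne_zero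
  have h2 : Ideal.Quotient.mk M ⟨y, hz⟩ = algebraMap ℚ (A ⧸ M) (1 / p) := by
    have h3 : (p : A ⧸ M) * algebraMap ℚ (A ⧸ M) (1 / p) = 1 := by
      have : (p : A ⧸ M) = algebraMap ℚ (A ⧸ M) p := by simp
      rw [this, ← map_mul, mul_one_div_cancel hp0, map_one]
    have hpne : (p : A ⧸ M) ≠ 0 := by
      intro h; rw [h, zero_mul] at h1; exact zero_ne_one h1
    exact mul_left_cancel₀ hpne (h1.trans h3.symm)
  have h4 : (N : A ⧸ M) ^ k * Ideal.Quotient.mk M ⟨y, hz⟩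
      = algebraMap ℚ (A ⧸ M) ((N : ℚ) ^ k / p) := by
    rw [h2]
    have : (N : A ⧸ M) = algebraMap ℚ (A ⧸ M) N := by simp
    rw [this, ← map_pow, ← map_mul]
    congr 1
    ring
  rw [h4] at hk
  have h5 : IsIntegral ℤ ((N : ℚ) ^ k / p) :=
    (isIntegral_algebraMap_iff (algebraMap ℚ (A ⧸ M)).injective).1 hk
  obtain ⟨m, hm⟩ := IsIntegrallyClosed.isIntegral_iff.1 h5
  have h6 : (p : ℤ) * m = N ^ k := by
    have : (p : ℚ) * (m : ℚ) = (N : ℚ) ^ k := by
      have hm' : (m : ℚ) = (N : ℚ) ^ k / p := by simpa using hm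
      rw [hm']; field_simp
    exact_mod_cast this
  have h7 : (p : ℤ) ∣ N := by
    have : (p : ℤ) ∣ N ^ k := ⟨m, h6.symm⟩
    exact (Nat.prime_iff_prime_int.1 hp).dvd_of_dvd_pow this
  have h8 : p ≤ N.natAbs := Nat.le_of_dvd (Int.natAbs_pos.2 hN) (Int.natCast_dvd.1 h7)
  omega

/-- **Z3**: valuation rings of `ℂ` above almost all primes, at which given numbers are integral and a
given nonzero number is a unit -/
theorem exists_place (s : Finset ℂ) (δ : ℂ) (_hδ : δ ≠ 0) : ∃ p₀ : ℕ, ∀ p : ℕ, p.Prime → p₀ ≤ p →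
    ∃ O : ValuationSubring ℂ, (p : ℂ) ∈ O.nonunits ∧ (∀ z ∈ s, z ∈ O) ∧ δ ∈ O ∧ δ⁻¹ ∈ O := by
  classical
  obtain ⟨p₀, h⟩ := exists_nonunit (insert δ (insert δ⁻¹ s))
  refine ⟨p₀, fun p hp hpp => ?_⟩
  set S : Finset ℂ := insert δ (insert δ⁻¹ s) with hS
  set A : Subring ℂ := (Algebra.adjoin ℤ (S : Set ℂ)).toSubring with hA
  have hsub : ∀ z ∈ S, z ∈ A := fun z hz => Algebra.subset_adjoin (Finset.mem_coe.2 hz)
  have hI : Ideal.span {(p : A)} ≠ ⊤ := by
    intro ht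
    obtain ⟨y, hy⟩ := (Ideal.mem_span_singleton'.1 ((Ideal.eq_top_iff_one _).1 ht))
    refine h p hp hpp y.1 y.2 ?_
    have := congrArg (Subtype.val) hy
    simpa [mul_comm] using this
  obtain ⟨O, hO1, hO2⟩ := Ideal.image_subset_nonunits_valuationSubring (Ideal.span {(p : A)}) hI
  have hin : ∀ z ∈ S, z ∈ O := fun z hz => hO1 (hsub z hz)
  refine ⟨O, ?_, fun z hz => hin z (by simp [hS, hz]), hin _ (by simp [hS]), hin _ (by simp [hS])⟩
  have := hO2 ⟨(p : A), Ideal.mem_span_singleton_self _, rfl⟩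
  simpa using this

end Pool.Agent.Helper91.ZT
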