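import Pool.Agent.Helper20.ZT.Defs

/-! # The Fermat quotient computation (module Z4) -/

namespace Pool.Agent.Helper91.ZT
open Pool.Agent.Helper20.ZT

section ring

variable {R : Type*} [CommRing R]

/-- binomial expansion with a good remainder -/
theorem pow_prime_expand {p : ℕ} (hp : p.Prime) (hp2 : 2 < p) (x y : R) (hxy : x = p * y) :
    ∃ t : R, (1 + x) ^ p = 1 + p * x + p ^ 2 * x * t := by
  have h1 : (p : R) ^ 2 * x ∣ (1 + x) ^ p - 1 - p * x := by
    have h2 : (1 + x) ^ p = ∑ m ∈ Finset.range (p + 1), x ^ m * (p.choose m : R) := by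
      rw [add_comm, add_pow]
      exact Finset.sum_congr rfl fun m _ => by rw [one_pow, mul_one]
    obtain ⟨q, rfl⟩ : ∃ q, p = q + 2 := ⟨p - 2, by omega⟩
    rw [h2, Finset.sum_range_succ', Finset.sum_range_succ']
    have h3 : (∑ k ∈ Finset.range (q + 1), x ^ (k + 1 + 1) * (((q + 2).choose (k + 1 + 1) : ℕ) : R)
        + x ^ (0 + 1) * (((q + 2).choose (0 + 1) : ℕ) : R)
        + x ^ 0 * (((q + 2).choose 0 : ℕ) : R)) - 1 - ((q + 2 : ℕ) : R) * x
        = ∑ k ∈ Finset.range (q + 1), x ^ (k + 1 + 1) * (((q + 2).choose (k + 1 + 1) : ℕ) : R) := by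
      simp only [zero_add, pow_one, pow_zero, Nat.choose_one_right, Nat.choose_zero_right,
        Nat.cast_one]
      ring
    rw [h3]
    refine Finset.dvd_sum fun k hk => ?_
    rw [Finset.mem_range] at hk
    rcases Nat.lt_or_ge k q with hkq | hkq
    · obtain ⟨c, hc⟩ := hp.dvd_choose_self (k := k + 1 + 1) (by omega) (by omega)
      rw [hc]
      refine ⟨y ^ (k + 1) * ((q + 2 : ℕ) : R) ^ k * c, ?_⟩
      have hx' : x ^ (k + 1) = ((q + 2 : ℕ) : R) ^ (k + 1) * y ^ (k + 1) := by rw [hxy, mul_pow]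
      rw [pow_succ x (k + 1), hx']
      push_cast
      ring
    · have hk' : k = q := by omega
      subst hk'
      rw [Nat.choose_self, Nat.cast_one, mul_one]
      refine ⟨y ^ (k + 1) * ((k + 2 : ℕ) : R) ^ (k - 1), ?_⟩
      have hx' : x ^ (k + 1) = ((k + 2 : ℕ) : R) ^ (k + 1) * y ^ (k + 1) := by rw [hxy, mul_pow]
      rw [pow_succ x (k + 1), hx']
      obtain ⟨l, rfl⟩ : ∃ l, k = l + 1 := ⟨k - 1, by omega⟩
      simp only [Nat.add_sub_cancel]
      ring
  obtain ⟨t, ht⟩ := h1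
  exact ⟨t, by linear_combination ht⟩

variable [IsLocalRing R]

open IsLocalRing

theorem isUnit_of_not_dvd {p : ℕ} (hp : p.Prime) (hpm : (p : R) ∈ maximalIdeal R) {u : ℤ}
    (hu : ¬ (p : ℤ) ∣ u) : IsUnit (u : R) := by
  by_contra h
  have h1 : (u : R) ∈ maximalIdeal R := h
  have h2 : IsCoprime (p : ℤ) u :=
    (Nat.prime_iff_prime_int.1 hp).coprime_iff_not_dvd.2 hu
  obtain ⟨a, b, hab⟩ := h2
  have h3 : (a : R) * p + b * u = 1 := by exact_mod_cast congrArg (Int.cast : ℤ → R) hab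
  have h4 : (1 : R) ∈ maximalIdeal R := by
    rw [← h3]
    exact Ideal.add_mem _ (Ideal.mul_mem_left _ _ hpm) (Ideal.mul_mem_left _ _ h1)
  exact (Ideal.ne_top_iff_one _).1 (maximalIdeal.isMaximal R).ne_top h4

/-- `1 + p^e g`, `g` a unit, is not a root of unity, for `p` odd -/
theorem pow_ne_one [IsDomain R] {p : ℕ} (hp : p.Prime) (hp2 : 2 < p) (hpm : (p : R) ∈ maximalIdeal R)
    (hp0 : (p : R) ≠ 0) : ∀ N : ℕ, 0 < N → ∀ (e : ℕ) (g : R), IsUnit g →
      (1 + (p : R) ^ (e + 1) * g) ^ N ≠ 1 := by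
  intro N
  induction N using Nat.strong_induction_on with
  | _ N ih =>
    intro hN e g hg h
    have hxm : (p : R) ^ (e + 1) * g ∈ maximalIdeal R :=
      Ideal.mul_mem_right _ _ (Ideal.pow_mem_of_mem _ hpm _ (by omega))
    have hx0 : (p : R) ^ (e + 1) * g ≠ 0 := mul_ne_zero (pow_ne_zero _ hp0) hg.ne_zero
    by_cases hpN : p ∣ N
    · obtain ⟨N', rfl⟩ := hpN
      have hN' : 0 < N' := Nat.pos_of_mul_pos_left hN |> fun h => by
        rcases Nat.eq_zero_or_pos N' with h0 | h0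
        · rw [h0] at hN; simp at hN
        · exact h0
      obtain ⟨t, ht⟩ := pow_prime_expand hp hp2 ((p : R) ^ (e + 1) * g) ((p : R) ^ e * g) (by ring)
      have h1 : (1 + (p : R) ^ (e + 1) * g) ^ p = 1 + (p : R) ^ (e + 1 + 1) * (g * (1 + p * t)) := by
        rw [ht]; ring
      have hu : IsUnit (g * (1 + p * t)) := by
        refine hg.mul ?_
        by_contra hcon
        have h2 : (1 + (p : R) * t) ∈ maximalIdeal R := hcon
        have h3 : (1 : R) ∈ maximalIdeal R := by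
          have := Ideal.sub_mem _ h2 (Ideal.mul_mem_right t _ hpm)
          simp at this
        exact (Ideal.ne_top_iff_one _).1 (maximalIdeal.isMaximal R).ne_top h3
      refine ih N' ?_ hN' (e + 1) _ hu ?_
      · nlinarith
      · rw [← h1, ← pow_mul]; exact h
    · obtain ⟨k, hk⟩ := Polynomial.powAddExpansion (1 : R) ((p : R) ^ (e + 1) * g) N
      rw [h] at hk
      simp only [one_pow, mul_one] at hk
      have h1 : ((p : R) ^ (e + 1) * g) * (N + k * ((p : R) ^ (e + 1) * g)) = 0 := by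
        linear_combination -hk
      rcases mul_eq_zero.1 h1 with h2 | h2
      · exact hx0 h2
      · have h3 : (N : R) ∈ maximalIdeal R := by
          have : (N : R) = -(k * ((p : R) ^ (e + 1) * g)) := by linear_combination h2
          rw [this]
          exact Ideal.neg_mem_iff _ |>.2 (Ideal.mul_mem_left _ _ hxm)
        have h4 : IsUnit ((N : ℤ) : R) := isUnit_of_not_dvd hp hpm (by exact_mod_cast hpN)
        have h5 : IsUnit (N : R) := by simpa using h4
        exact h3 h5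

/-- expansion of `(u + p P)^(p-1)` -/
theorem pow_expand {p : ℕ} (hp : p.Prime) (hpm : (p : R) ∈ maximalIdeal R)
    {u : ℤ} (hu : ¬ (p : ℤ) ∣ u) (A : R) : ∃ α : R, ((u : R) + p * A) ^ (p - 1) = 1 + p * α ∧
      (α - (fq p u : R)) * u + A ∈ maximalIdeal R := by
  have hfe : (u : ℤ) ^ (p - 1) = 1 + p * fq p u := by
    have h1 : (p : ℤ) ∣ u ^ (p - 1) - 1 := by
      have := Fact.mk hp
      have h2 : (u : ZMod p) ≠ 0 := by
        rwa [Ne, ZMod.intCast_zmod_eq_zero_iff_dvd]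
      have h3 := ZMod.pow_card_sub_one_eq_one h2
      rw [← ZMod.intCast_zmod_eq_zero_iff_dvd]
      push_cast
      rw [h3, sub_self]
    unfold fq
    rw [Int.mul_ediv_cancel' h1]
    ring
  have hfR : (u : R) ^ (p - 1) = 1 + p * (fq p u : R) := by exact_mod_cast congrArg (Int.cast : ℤ → R) hfe
  obtain ⟨k, hk⟩ := Polynomial.powAddExpansion (u : R) (p * A) (p - 1)
  refine ⟨(fq p u : R) + ((p - 1 : ℕ) : R) * u ^ (p - 1 - 1) * A + k * p * A ^ 2, ?_, ?_⟩
  · rw [hk, hfR]; ring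
  · have hp1 : ((p - 1 : ℕ) : R) = p - 1 := by
      rw [Nat.cast_sub hp.one_lt.le, Nat.cast_one]
    have h1 : (u : R) ^ (p - 1 - 1) * u = 1 + p * (fq p u : R) := by
      rw [← pow_succ, ← hfR]
      congr 1
      have := hp.two_le
      omega
    have h2 : ((fq p u : R) + ((p - 1 : ℕ) : R) * u ^ (p - 1 - 1) * A + k * p * A ^ 2 - (fq p u : R)) * u + A
        = p * (A * (1 + p * (fq p u : R)) - (fq p u : R) * A + k * A ^ 2 * u) := by
      rw [hp1]
      linear_combination ((p : R) - 1) * A * h1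
    rw [h2]
    exact Ideal.mul_mem_right _ _ hpm

/-- the computation in a local domain -/
theorem fermat_local [IsDomain R] {p : ℕ} (hp : p.Prime) (hp2 : 2 < p) (hpm : (p : R) ∈ maximalIdeal R)
    (hp0 : (p : R) ≠ 0) {u v : ℤ} (hu : ¬ (p : ℤ) ∣ u) (hv : ¬ (p : ℤ) ∣ v) (A B : R) {N : ℕ}
    (hN : 0 < N) {ζ w : R} (hζ : ζ ^ N = 1)
    (h : ((v : R) + p * B) - ζ * (u + p * A) = p ^ 2 * w) :
    ∃ α β : R, (α - (fq p u : R)) * u + A ∈ maximalIdeal R ∧
      (β - (fq p v : R)) * v + B ∈ maximalIdeal R ∧ β - α ∈ maximalIdeal R := by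
  obtain ⟨α, hα, hα'⟩ := pow_expand hp hpm hu A
  obtain ⟨β, hβ, hβ'⟩ := pow_expand hp hpm hv B
  refine ⟨α, β, hα', hβ', ?_⟩
  obtain ⟨k, hk⟩ := Polynomial.powAddExpansion (ζ * (u + p * A)) (p ^ 2 * w) (p - 1)
  have h1 : (v : R) + p * B = ζ * (u + p * A) + p ^ 2 * w := by linear_combination h
  rw [← h1, hβ, mul_pow, hα] at hk
  set η : R := ζ ^ (p - 1) with hη
  have hηN : η ^ N = 1 := by rw [hη, ← pow_mul, mul_comm, pow_mul, hζ, one_pow]
  set W : R := ((p - 1 : ℕ) : R) * (ζ * (u + p * A)) ^ (p - 1 - 1) * w + k * p ^ 2 * w ^ 2 with hW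
  have h2 : η = 1 + p ^ (0 + 1) * (β - η * α - p * W) := by
    rw [hW]; linear_combination -hk
  have h3 : β - η * α - p * W ∈ maximalIdeal R := by
    by_contra hcon
    have hun : IsUnit (β - η * α - p * W) := by
      by_contra hcon'
      exact hcon hcon'
    refine pow_ne_one hp hp2 hpm hp0 N hN 0 _ hun ?_
    rw [← h2]; exact hηN
  have h4 : β - α = (β - η * α - p * W) + (p ^ (0 + 1) * (β - η * α - p * W)) * α + p * W := by
    linear_combination α * h2
  rw [h4]
  exact Ideal.add_mem _ (Ideal.add_mem _ h3 (Ideal.mul_mem_right _ _ (Ideal.mul_mem_left _ _ h3)))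
    (Ideal.mul_mem_right _ _ hpm)

end ring

/-- **Z4**: the Fermat quotient computation -/
theorem fermat_step {K : Type*} [Field K] [CharZero K] (O : ValuationSubring K) {p : ℕ}
    (hp : p.Prime) (hp2 : 2 < p) (hpO : (p : K) ∈ O.nonunits) {u v : ℤ} (hu : ¬ (p : ℤ) ∣ u)
    (hv : ¬ (p : ℤ) ∣ v) {P Q : K} (hP : P ∈ O) (hQ : Q ∈ O) (κ : ℤ)
    (h : Rig κ p O ((u : K) / p + P) ((v : K) / p + Q)) :
    ((P - κ) / u - fq p u) - ((Q - κ) / v - fq p v) ∈ O.nonunits := by
  have hpK : (p : K) ≠ 0 := by exact_mod_cast hp.ne_zero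
  have hpm : ((p : O)) ∈ IsLocalRing.maximalIdeal O := by
    rw [← ValuationSubring.coe_mem_nonunits_iff]; simpa using hpO
  have hp0 : (p : O) ≠ 0 := by
    intro h0
    apply hpK
    have := congrArg (Subtype.val : O → K) h0
    simpa using this
  have hκ : ∀ z : ℤ, (z : K) ∈ O := fun z => by
    simp
  have hunit : ∀ {z : ℤ}, ¬ (p : ℤ) ∣ z → IsUnit (z : O) := fun hz => isUnit_of_not_dvd hp hpm hz
  -- the coordinates are not integral, of valuation that of `1 / p`
  have aux : ∀ {z : ℤ} {S : K}, ¬ (p : ℤ) ∣ z → S ∈ O → ((z : K) / p + S ∉ O ∧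
      (p : K) * ((z : K) / p + S) ∈ O ∧ (p : K) * ((z : K) / p + S) ∉ O.nonunits) := by
    intro z S hz hS
    have e : (p : K) * ((z : K) / p + S) = (((z : O) + p * ⟨S, hS⟩ : O) : K) := by
      push_cast
      field_simp
    have hu1 : IsUnit ((z : O) + p * ⟨S, hS⟩ : O) := by
      by_contra hcon
      have h1 : ((z : O) + p * ⟨S, hS⟩ : O) ∈ IsLocalRing.maximalIdeal O := hcon
      have h2 : (z : O) ∈ IsLocalRing.maximalIdeal O := by
        have := Ideal.sub_mem _ h1 (Ideal.mul_mem_right (⟨S, hS⟩ : O) _ hpm)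
        simpa using this
      exact h2 (hunit hz)
    have h3 : (p : K) * ((z : K) / p + S) ∉ O.nonunits := by
      rw [e, ValuationSubring.coe_mem_nonunits_iff]
      exact fun h => h hu1
    refine ⟨fun hin => h3 ?_, ?_, h3⟩
    · have : (p : K) * ((z : K) / p + S) = (((p : O) * ⟨_, hin⟩ : O) : K) := by push_cast; rfl
      rw [this, ValuationSubring.coe_mem_nonunits_iff]
      exact Ideal.mul_mem_right _ _ hpm
    · rw [e]; exact Subtype.property _
  obtain ⟨hu1, hu2, hu3⟩ := aux hu hP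
  obtain ⟨hv1, hv2, hv3⟩ := aux hv hQ
  obtain ⟨N, ζ, w, hN, hζ, hw, hrel⟩ := h hu1 hv1 hu2 hu3 hv2 hv3
  have hζO : ζ ∈ O := by
    rw [← ValuationSubring.valuation_le_one_iff]
    have h1 : O.valuation ζ ^ N = 1 := by rw [← map_pow, hζ, map_one]
    exact ((pow_eq_one_iff.1 h1).resolve_right hN.ne').le
  obtain ⟨α, β, hα, hβ, hαβ⟩ := fermat_local (R := O) hp hp2 hpm hp0 hu hv
    (⟨P, hP⟩ - (κ : O)) (⟨Q, hQ⟩ - (κ : O)) hN (ζ := ⟨ζ, hζO⟩) (w := ⟨w, hw⟩)
    (by apply Subtype.ext; push_cast; exact hζ)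
    (by
      apply Subtype.ext
      push_cast
      have e1 : (p : K) * ((u : K) / p) = u := by field_simp
      have e2 : (p : K) * ((v : K) / p) = v := by field_simp
      have e3 : (p : K) * ((((v : K) / p + Q) - κ) - ζ * (((u : K) / p + P) - κ)) = p * (p * w) := by
        rw [hrel]
      linear_combination e3 + ζ * e1 - e2)
  have huK : (u : K) ≠ 0 := by
    intro h0
    have : u = 0 := by exact_mod_cast h0
    rw [this] at hu; exact hu (dvd_zero _)
  have hvK : (v : K) ≠ 0 := by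
    intro h0
    have : v = 0 := by exact_mod_cast h0
    rw [this] at hv; exact hv (dvd_zero _)
  obtain ⟨u', hu'⟩ := (hunit hu).exists_left_inv
  obtain ⟨v', hv'⟩ := (hunit hv).exists_left_inv
  have hu'K : (u' : K) = (u : K)⁻¹ := by
    have := congrArg (Subtype.val : O → K) hu'
    push_cast at this
    exact eq_inv_of_mul_eq_one_left this
  have hv'K : (v' : K) = (v : K)⁻¹ := by
    have := congrArg (Subtype.val : O → K) hv'
    push_cast at this
    exact eq_inv_of_mul_eq_one_left this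
  have e : ((P - κ) / u - fq p u) - ((Q - κ) / v - fq p v)
      = ((u' * ((α - (fq p u : O)) * u + (⟨P, hP⟩ - (κ : O)))
        - v' * ((β - (fq p v : O)) * v + (⟨Q, hQ⟩ - (κ : O))) + (β - α) : O) : K) := by
    push_cast
    rw [hu'K, hv'K]
    field_simp
    ring
  rw [e, ValuationSubring.coe_mem_nonunits_iff]
  exact Ideal.add_mem _ (Ideal.sub_mem _ (Ideal.mul_mem_left _ _ hα) (Ideal.mul_mem_left _ _ hβ)) hαβ

end Pool.Agent.Helper91.ZT
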